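import Mathlib
import Pool.Agent.H12x.WL.W45
import Pool.Agent.H12x.WL.Br

/-!
# All but 43 dyadic windows, at every scale

Let `S(x) = 2 x - 1`. The question asks whether every window `[N, 2 N]`, `N` large, contains a prime `S(q)`
with `q` prime. Here the windows are `W j = [2^j X, (11/4) 2^j X]`, `j = 0, 1, 2, ...`.

1. Among any `45` of the windows `W j` there are two, `i < j`, such that at least `X / (log X) ^ C` primes
`q ∈ W i` are mapped to primes of `W j` by the iterate `S^(j - i)`, for all large `X`.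
2. So for every `m` and all large `X` all but at most `43` of the windows `W 1, ..., W m` contain at least
`X / (log X) ^ C` primes `S^k(q)`, `q` prime, for some `k`, `1 ≤ k ≤ j`. The upper logarithmic density of the
`N` such that `[N, (11/4) N]` contains no prime `S^k(q)`, `q` prime, `1 ≤ k ≤ m`, is at most `43 / m`.

There is no exceptional set of maps and no perturbation of the map here.

The equidistribution and the certificate behind `DHL[45, 2]` for linear forms (`Pool.Agent.Y826.ZG`), and the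
count (`Pool.Agent.Y876.FF`), are from the starting files; the sieve weights are supported in `[X, e X]`.
-/

set_option autoImplicit false

namespace Pool.Agent.Results.MP_39a890_nt.AllButFortyThreeWindows

open Finset Filter

/-- the map `x ↦ 2 x - 1` -/
def S (x : ℕ) : ℕ := 2 * x - 1

/-- `p` lies in the window `[2^j X, (11/4) 2^j X]` -/
def InW (X j p : ℕ) : Prop := (2 : ℝ) ^ j * X ≤ p ∧ (p : ℝ) ≤ 11 / 4 * (2 ^ j * X)

/-- the number of the primes `q` of the `i`-th window for which `S^(j - i)(q)` is a prime of the `j`-th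
window -/
noncomputable def links (X i j : ℕ) : ℕ :=
  {q : ℕ | q.Prime ∧ InW X i q ∧ (S^[j - i] q).Prime ∧ InW X j (S^[j - i] q)}.ncard

/-- the number of the primes of the `j`-th window which are values of the `k`-th iterate of `S` at primes -/
noncomputable def values (X j k : ℕ) : ℕ :=
  {p : ℕ | p.Prime ∧ InW X j p ∧ ∃ q : ℕ, q.Prime ∧ S^[k] q = p}.ncard

theorem links_eq (X i j : ℕ) :
    links X i j = (Pool.Agent.H12x.WL.link (7 / 4) X (-1) i j).ncard := by
  rw [Pool.Agent.H12x.WL.link_SN]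
  unfold links InW
  have h : (1 + 7 / 4 : ℝ) = 11 / 4 := by norm_num
  rw [h]
  rfl

theorem links_le_values (X i j : ℕ) : links X i j ≤ values X j (j - i) := by
  unfold links values
  refine Set.ncard_le_ncard_of_injOn (fun q => S^[j - i] q) ?_ ?_ ?_
  · rintro q ⟨h1, h2, h3, h4⟩
    exact ⟨h3, h4, q, h1, rfl⟩
  · rintro q ⟨h1, -⟩ q' ⟨h1', -⟩ h
    have h5 : S^[j - i] q = 2 ^ (j - i) * (q - 1) + 1 :=
      Pool.Agent.H12x.WL.SN_iter _ _ h1.one_lt.le
    have h6 : S^[j - i] q' = 2 ^ (j - i) * (q' - 1) + 1 :=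
      Pool.Agent.H12x.WL.SN_iter _ _ h1'.one_lt.le
    simp only at h
    rw [h5, h6] at h
    have h7 : q - 1 = q' - 1 := Nat.eq_of_mul_eq_mul_left (by positivity) (Nat.succ_injective h)
    have h8 := h1.two_le
    have h9 := h1'.two_le
    omega
  · refine (Set.finite_le_nat ⌊11 / 4 * ((2 : ℝ) ^ j * X)⌋₊).subset fun p hp => ?_
    exact Nat.le_floor hp.2.1.2

/-- **Main theorem**, see the head of the file. -/
theorem result : ∃ C : ℕ,
    (∀ E : Finset ℕ, 45 ≤ E.card → ∃ X₀ : ℕ, ∀ X : ℕ, X₀ ≤ X →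
      ∃ i ∈ E, ∃ j ∈ E, i < j ∧ (X : ℝ) / Real.log X ^ C ≤ links X i j) ∧
    ∀ m : ℕ, ∃ X₀ : ℕ, ∀ X : ℕ, X₀ ≤ X →
      {j : ℕ | 1 ≤ j ∧ j ≤ m ∧ ∀ k : ℕ, 1 ≤ k → k ≤ j →
        (values X j k : ℝ) < (X : ℝ) / Real.log X ^ C}.ncard ≤ 43 := by
  obtain ⟨C, hC⟩ := Pool.Agent.H12x.WL.w45
  refine ⟨C, fun E hE => ?_, fun m => ?_⟩
  · obtain ⟨X₀, h⟩ := eventually_atTop.1 (hC E hE)
    refine ⟨X₀, fun X hX => ?_⟩
    obtain ⟨i, hi, j, hj, hij, h1⟩ := h X hX
    exact ⟨i, hi, j, hj, hij, by rw [links_eq]; exact h1⟩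
  · have h1 : ∀ᶠ X : ℕ in atTop, ∀ E ∈ (range (m + 1)).powerset, 45 ≤ E.card →
        ∃ i ∈ E, ∃ j ∈ E, i < j ∧ (X : ℝ) / Real.log X ^ C ≤
          ((Pool.Agent.H12x.WL.link (7 / 4) X (-1) i j).ncard : ℝ) := by
      rw [Filter.eventually_all_finset]
      intro E _
      by_cases hE : 45 ≤ E.card
      · filter_upwards [hC E hE] with X hX _
        exact hX
      · exact Eventually.of_forall fun X h => absurd h hE
    obtain ⟨X₀, h⟩ := eventually_atTop.1 h1
    refine ⟨X₀, fun X hX => ?_⟩
    by_contra hcon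
    push Not at hcon
    set B : Set ℕ := {j : ℕ | 1 ≤ j ∧ j ≤ m ∧ ∀ k : ℕ, 1 ≤ k → k ≤ j →
        (values X j k : ℝ) < (X : ℝ) / Real.log X ^ C} with hB
    have hfin : B.Finite := (Set.finite_le_nat m).subset fun j hj => hj.2.1
    obtain ⟨i, hi, j, hj, hij, h2⟩ := h X hX (insert 0 hfin.toFinset) (by
      rw [mem_powerset]
      intro j hj
      rw [mem_insert, Set.Finite.mem_toFinset] at hj
      rw [mem_range]
      rcases hj with rfl | hj
      · omega
      · have := hj.2.1
        omega) (by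
      rw [card_insert_of_notMem (by
        rw [Set.Finite.mem_toFinset]
        intro h0
        exact absurd h0.1 (by norm_num))]
      rw [← Set.ncard_eq_toFinset_card B hfin]
      omega)
    rw [mem_insert, Set.Finite.mem_toFinset] at hj
    rcases hj with rfl | hj
    · exact absurd hij (Nat.not_lt_zero _)
    · have h3 := hj.2.2 (j - i) (by omega) (by omega)
      rw [← links_eq] at h2
      have h4 : (links X i j : ℝ) ≤ values X j (j - i) := by exact_mod_cast links_le_values X i j
      linarith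

end Pool.Agent.Results.MP_39a890_nt.AllButFortyThreeWindows
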