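import Mathlib
import Pool.Agent.H12x.WL.ExpFin
import Pool.Agent.H12x.WL.Br

/-!
# Windows linked by the iterates `S^k, S^(2k), ..., S^(mk)` of `S(x) = 2 x - 1`, for almost all `k`

The question asks whether for all large `N` the windows `[N/2, N]`, `[N, 2 N]` are linked: is there a prime `q`
in the first one with `S(q)` a prime of the second one?

Here the windows are `W e = [2^e X, (1 + δ) 2^e X]`, `e = 0, 1, 2, ...`. For `a < b` the windows `W a`, `W b` are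
called linked at `X` if `S^(b - a)(q)` is a prime of `W b` for at least `X ^ (1 - η)` primes `q ∈ W a`. The pair
`(k, s)` is called good at `X` if EVERY set of the windows `W s, W (s + k), ..., W (s + m k)` contains at least
`1 / (4 - c)` of its size pairwise linked windows, `c > 0` absolute. In particular two of any four of these
windows are linked, so one of `S^k, S^(2k), S^(3k)` works for each `k` (`m = 3`), and all but at most two of the
windows `W (s + j k)`, `1 ≤ j ≤ m`, contain primes `S^(i k)(q)`, `q` prime, `1 ≤ i ≤ j`.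

At every large scale `X`:
1. every `ℓ × ℓ` grid `(k₀ + t a, s₀ + t b)`, `a, b < ℓ`, contains a good pair;
2. all but `ε H ^ 2` of the pairs in every square of side `H ≥ L` are good.

There is no perturbation of the map here. The coloured Maynard-Tao theorem with a constant below `4` in short
windows (`Pool.Agent.TH899.UG.NW.exactW`) is from the starting files. Part 2 uses the density Hales-Jewett
theorem of the team's files (`Pool.Agent.H602R3.DHJ`), part 1 the Hales-Jewett theorem of Mathlib.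
-/

set_option autoImplicit false

namespace Pool.Agent.Results.MP_39a890_nt.LinkedMultiples

open Finset Filter

/-- the map `x ↦ 2 x - 1` -/
def S (x : ℕ) : ℕ := 2 * x - 1

/-- `p` lies in the window `[2^e X, (1 + δ) 2^e X]` -/
def InW (δ : ℝ) (X e p : ℕ) : Prop := (2 : ℝ) ^ e * X ≤ p ∧ (p : ℝ) ≤ (1 + δ) * (2 ^ e * X)

/-- the number of the primes `q` of the window `a` for which `S^(b - a)(q)` is a prime of the window `b` -/
noncomputable def links (δ : ℝ) (X a b : ℕ) : ℕ :=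
  {q : ℕ | q.Prime ∧ InW δ X a q ∧ (S^[b - a] q).Prime ∧ InW δ X b (S^[b - a] q)}.ncard

/-- every set `A` of the windows `s + k i`, `i ≤ m`, contains at least `|A| / (4 - c)` pairwise linked
windows -/
def Good (c δ η : ℝ) (m X k s : ℕ) : Prop :=
  ∀ A : Finset ℕ, (∀ i ∈ A, i ≤ m) → ∃ B ⊆ A, (A.card : ℝ) / (4 - c) ≤ B.card ∧
    ∀ i ∈ B, ∀ j ∈ B, i < j → (X : ℝ) ^ (1 - η) ≤ links δ X (s + k * i) (s + k * j)

theorem links_eq (δ : ℝ) (X a b : ℕ) :
    links δ X a b = (Pool.Agent.H12x.WL.link δ X (-1) a b).ncard := by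
  rw [Pool.Agent.H12x.WL.link_SN]
  rfl

theorem good_of {c δ η η' : ℝ} (hc : c < 1) {m X : ℕ} (hX : 1 ≤ X) (hη : η' ≤ η) {k s : ℕ}
    (h : Pool.Agent.H12x.WL.GoodE c δ η' m X ((k : ℤ), (s : ℤ))) : Good c δ η m X k s := by
  intro A hA
  obtain ⟨B, hB, h1, h2⟩ := h A (fun i hi => mem_range.2 (by have := hA i hi; omega))
  refine ⟨B, hB, ?_, fun i hi j hj hij => ?_⟩
  · rw [div_le_iff₀ (by linarith)]
    linarith
  · rw [links_eq]
    have h3 := h2 i hi j hj hij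
    have h4 : ∀ i : ℕ, (((k : ℤ), (s : ℤ)).2 + ((k : ℤ), (s : ℤ)).1 * i).toNat = s + k * i := by
      intro i
      have : ((s : ℤ) + k * i) = ((s + k * i : ℕ) : ℤ) := by push_cast; rfl
      show ((s : ℤ) + k * i).toNat = _
      rw [this, Int.toNat_natCast]
    rw [h4, h4] at h3
    refine le_trans ?_ h3
    exact Real.rpow_le_rpow_of_exponent_le (by exact_mod_cast hX) (by linarith)

/-- **Main theorem**, see the head of the file. -/
theorem result : ∃ c : ℝ, 0 < c ∧ c < 1 ∧ ∀ (m : ℕ) (δ : ℝ), 0 < δ →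
    (∃ ℓ : ℕ, ∀ (M : ℕ) (η : ℝ), 0 < η → ∃ X₀ : ℕ, ∀ X : ℕ, X₀ ≤ X → ∀ k₀ s₀ t : ℕ, 1 ≤ k₀ →
      1 ≤ t → k₀ + t * ℓ ≤ M → s₀ + t * ℓ ≤ M →
      ∃ a < ℓ, ∃ b < ℓ, Good c δ η m X (k₀ + t * a) (s₀ + t * b)) ∧
    ∀ ε : ℝ, 0 < ε → ∃ L : ℕ, ∀ (M : ℕ) (η : ℝ), 0 < η → ∃ X₀ : ℕ, ∀ X : ℕ, X₀ ≤ X →
      ∀ u v H : ℕ, L ≤ H → u + H ≤ M → v + H ≤ M →
      ({z : ℕ × ℕ | u < z.1 ∧ z.1 ≤ u + H ∧ v ≤ z.2 ∧ z.2 < v + H ∧
        ¬ Good c δ η m X z.1 z.2}.ncard : ℝ) ≤ ε * H ^ 2 := by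
  obtain ⟨c, hc, hc1, h⟩ := Pool.Agent.H12x.WL.grids
  refine ⟨c, hc, hc1, fun m δ hδ => ?_⟩
  obtain ⟨⟨ℓ, h1⟩, h2⟩ := h m δ hδ
  refine ⟨⟨ℓ, fun M η hη => ?_⟩, fun ε hε => ?_⟩
  · obtain ⟨X₀, hX₀⟩ := eventually_atTop.1 (h1 M (min η 1) (by positivity) (min_le_right _ _))
    refine ⟨X₀ + 1, fun X hX k₀ s₀ t hk ht hM1 hM2 => ?_⟩
    obtain ⟨a, ha, b, hb, hG⟩ := hX₀ X (by omega) k₀ s₀ t hk ht hM1 hM2
    exact ⟨a, ha, b, hb, good_of hc1 (by omega) (min_le_left _ _) hG⟩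
  · obtain ⟨L, hL⟩ := h2 ε hε
    refine ⟨L, fun M η hη => ?_⟩
    obtain ⟨X₀, hX₀⟩ := eventually_atTop.1 (hL M (min η 1) (by positivity) (min_le_right _ _))
    refine ⟨X₀ + 1, fun X hX u v H hH hM1 hM2 => le_trans ?_ (hX₀ X (by omega) u v H hH hM1 hM2)⟩
    rw [Nat.cast_le]
    refine Set.ncard_le_ncard ?_ (((Set.finite_Iic (u + H)).prod (Set.finite_Iio (v + H))).subset
      fun z hz => ⟨hz.2.1, hz.2.2.2.1⟩)
    rintro z ⟨h3, h4, h5, h6, h7⟩
    exact ⟨h3, h4, h5, h6, fun h8 => h7 (good_of hc1 (by omega) (min_le_left _ _) h8)⟩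

end Pool.Agent.Results.MP_39a890_nt.LinkedMultiples
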