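import Mathlib
import Pool.Agent.H12x.WL.Fin

/-!
# Dyadic windows which are linked by the iterates of `x ↦ 2 x + e`, at every scale, for almost all `e`

The question is about `S(x) = 2 x + e`, `e = -1`: is there, for every large `N`, a prime `q ∈ [N/2, N]` with
a prime `S(q)`, that is, are any two consecutive dyadic windows linked by `S`?

The windows are `W i = [2^i N, (1 + δ) 2^i N]`, `0 ≤ i ≤ m`. For `i < j` the windows `W i`, `W j` are called
linked if for at least `N ^ (1 - η)` primes `q ∈ W i` the iterate `S^(j - i)(q)` is a prime of `W j`. The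
number `e` is called good at `N` if EVERY set `A` of these windows contains at least `|A| / (4 - c)` pairwise
linked windows, where `c > 0` is absolute; for instance two of any four windows are linked, so that
(a) for all but two `j ∈ {1, ..., m}` the window `W j` contains primes `S^k(q)`, `q` prime, `1 ≤ k ≤ j`,
(b) for `m = 3` one of the first three iterates works in `W 1`, `W 2` or `W 3`.

At every large scale `N`, for arbitrarily large windows of `e` of bounded length, uniformly: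
1. every arithmetic progression of `ℓ` odd numbers `|e| ≤ N / L` contains a number that is good at `N`;
2. in every interval of `H ≥ L` numbers `|e| ≤ N / L` all but `ε H` of the odd ones are good at `N`.

The coloured Maynard-Tao theorem with a constant below `4` in short windows
(`Pool.Agent.TH899.UG.NW.exactW`) is from the starting files. Part 2 uses the density Hales-Jewett theorem
(`Pool.Agent.H602R3.DHJ`, through `Pool.Agent.Y863.AA.copy`), part 1 the Hales-Jewett theorem of Mathlib.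
-/

set_option autoImplicit false

namespace Pool.Agent.Results.MP_39a890_nt.LinkedWindows

open Finset Filter

/-- the map `x ↦ 2 x + e` -/
def S (e : ℤ) (x : ℤ) : ℤ := 2 * x + e

/-- `p` lies in the window `[2^i N, (1 + δ) 2^i N]` -/
def InW (δ : ℝ) (N i p : ℕ) : Prop := (2 : ℝ) ^ i * N ≤ p ∧ (p : ℝ) ≤ (1 + δ) * (2 ^ i * N)

/-- the number of the primes `q` of the `i`-th window for which the `(j - i)`-th iterate of `S e` is a prime
of the `j`-th window -/
noncomputable def links (δ : ℝ) (N : ℕ) (e : ℤ) (i j : ℕ) : ℕ :=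
  {q : ℕ | q.Prime ∧ InW δ N i q ∧ ∃ p : ℕ, p.Prime ∧ InW δ N j p ∧ (S e)^[j - i] q = p}.ncard

/-- every set `A` of windows with indices `≤ m` contains at least `|A| / (4 - c)` pairwise linked windows -/
def Good (c δ η : ℝ) (m N : ℕ) (e : ℤ) : Prop :=
  ∀ A : Finset ℕ, (∀ i ∈ A, i ≤ m) → ∃ B ⊆ A, (A.card : ℝ) / (4 - c) ≤ B.card ∧
    ∀ i ∈ B, ∀ j ∈ B, i < j → (N : ℝ) ^ (1 - η) ≤ links δ N e i j

theorem S_iter (e : ℤ) (k : ℕ) (x : ℤ) : (S e)^[k] x = 2 ^ k * x + (2 ^ k - 1) * e := by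
  induction k with
  | zero => simp
  | succ k ih =>
    rw [Function.iterate_succ_apply', ih]
    unfold S
    ring

theorem links_eq (δ : ℝ) (N : ℕ) (e : ℤ) (i j : ℕ) :
    links δ N e i j = (Pool.Agent.H12x.WL.link δ N e i j).ncard := by
  unfold links Pool.Agent.H12x.WL.link InW
  congr 1
  ext q
  constructor
  · rintro ⟨h1, ⟨h2, h3⟩, p, h4, ⟨h5, h6⟩, h7⟩
    exact ⟨h1, h2, h3, p, h4, h5, h6, by rw [← h7, S_iter]⟩
  · rintro ⟨h1, h2, h3, p, h4, h5, h6, h7⟩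
    exact ⟨h1, ⟨h2, h3⟩, p, h4, ⟨h5, h6⟩, by rw [h7, S_iter]⟩

theorem good_of {c δ η η' : ℝ} (hc : c < 1) {m N : ℕ} (hN : 1 ≤ N) (hη : η' ≤ η) {e : ℤ}
    (h : Pool.Agent.H12x.WL.Good c δ η' m N e) : Good c δ η m N e := by
  intro A hA
  obtain ⟨B, hB, h1, h2⟩ := h A (fun i hi => mem_range.2 (by have := hA i hi; omega))
  refine ⟨B, hB, ?_, fun i hi j hj hij => ?_⟩
  · rw [div_le_iff₀ (by linarith)]
    linarith
  · rw [links_eq]
    refine le_trans ?_ (h2 i hi j hj hij)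
    exact Real.rpow_le_rpow_of_exponent_le (by exact_mod_cast hN) (by linarith)

/-- **Main theorem**, see the head of the file. -/
theorem result : ∃ c : ℝ, 0 < c ∧ c < 1 ∧ ∀ (m : ℕ) (δ : ℝ), 0 < δ →
    (∃ ℓ L : ℕ, ∀ η : ℝ, 0 < η → ∃ N₀ : ℕ, ∀ N : ℕ, N₀ ≤ N → ∀ e₀ t : ℤ, Odd e₀ → Even t → t ≠ 0 →
      (∀ k < ℓ, (L : ℤ) * |e₀ + k * t| ≤ N) → ∃ k < ℓ, Good c δ η m N (e₀ + k * t)) ∧
    ∀ ε : ℝ, 0 < ε → ∃ L : ℕ, ∀ η : ℝ, 0 < η → ∃ N₀ : ℕ, ∀ N : ℕ, N₀ ≤ N → ∀ (u : ℤ) (H : ℕ),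
      L ≤ H → (L : ℤ) * (|u| + H) ≤ N →
      ({e : ℤ | u < e ∧ e ≤ u + H ∧ Odd e ∧ ¬ Good c δ η m N e}.ncard : ℝ) ≤ ε * H := by
  obtain ⟨c, hc, hc1, h⟩ := Pool.Agent.H12x.WL.progr
  refine ⟨c, hc, hc1, fun m δ hδ => ?_⟩
  obtain ⟨⟨ℓ, L, h1⟩, h2⟩ := h m δ hδ
  refine ⟨⟨ℓ, L, fun η hη => ?_⟩, fun ε hε => ?_⟩
  · obtain ⟨N₀, hN₀⟩ := eventually_atTop.1 (h1 (min η 1) (by positivity) (min_le_right _ _))
    refine ⟨N₀ + 1, fun N hN e₀ t he₀ ht ht0 hb => ?_⟩
    obtain ⟨k, hk, hG⟩ := hN₀ N (by omega) e₀ t he₀ ht ht0 hb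
    exact ⟨k, hk, good_of hc1 (by omega) (min_le_left _ _) hG⟩
  · obtain ⟨L, hL⟩ := h2 ε hε
    refine ⟨L, fun η hη => ?_⟩
    obtain ⟨N₀, hN₀⟩ := eventually_atTop.1 (hL (min η 1) (by positivity) (min_le_right _ _))
    refine ⟨N₀ + 1, fun N hN u H hH hHN => le_trans ?_ (hN₀ N (by omega) u H hH hHN)⟩
    rw [Nat.cast_le]
    refine Set.ncard_le_ncard ?_ ((Set.finite_Ioc u (u + H)).subset fun e he => ⟨he.1, he.2.1⟩)
    rintro e ⟨h3, h4, h5, h6⟩
    exact ⟨h3, h4, h5, fun h7 => h6 (good_of hc1 (by omega) (min_le_left _ _) h7)⟩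

end Pool.Agent.Results.MP_39a890_nt.LinkedWindows
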