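import Pool.Agent.H85G.F
import Pool.Agent.H85G.W2

/-!
# Primes `p` in `[N, 2 N]` with `(p - a) / 2` prime, for random `a` whose digits have long range interactions

The number `a` is an integer close to `c + κ v` with a random integer `v < b ^ k`. The digits of `v` form a Gibbs measure: the
interactions have unbounded range, involve any number of digits, and are neither small nor translation invariant; the only
condition is that they are summable at each position. The a priori measure is an arbitrary Markov random field with flexible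
digits on an arbitrary graph of positions of bounded degree. With a high probability, for ALL odd `a` nearby, ALL the windows
`[N, 2 N]` with `a ≤ N` (and all the other windows of comparable lengths) contain the expected number of primes `p` for which
`(p - a) / 2` is a prime, and the same for `(p - a) / d`, for ALL `d` up to a power of `k`, which is prime to `a`, `2 ∣ a d`.
The question is about `a = -1`, `d = 2`.

Method: the exponential sums over these measures are exponentially small in the number of the positions at which the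
frequency has a digit which is not extremal (`Pool.Agent.H85G`); so the random integers have a thin large spectrum, and the
primes `q ≤ X` with `d q + a` prime can be counted for one length `X` (starting files, `Pool.Agent.N699.ST.ws_all`); a grid of
scales and the monotonicity of the counting functions give all the windows.
-/

set_option autoImplicit false

namespace Pool.Agent.Results.MP_39a890_nt.LongRangeGibbsWindows

open Finset

/-- The digit of `v` at the position `i` in base `b` (the position `0` is the least significant one). -/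
def dig (b v i : ℕ) : ℕ := v / b ^ i % b

/-- The integer which has the digits of `v` at the positions in `S` and the digits of `w` at the other positions below `k`. -/
def splice (b k : ℕ) (S : Finset ℕ) (v w : ℕ) : ℕ := ∑ i ∈ range k, (if i ∈ S then dig b v i else dig b w i) * b ^ i

/-- `v` and `w` have the same digits outside the set `S` of positions. -/
def Off (b : ℕ) (S : Finset ℕ) (v w : ℕ) : Prop := ∀ i, i ∉ S → dig b v i = dig b w i

open Classical in
/-- The closed neighbourhood of the position `i` in the graph `A` on the positions `0, …, k - 1`. -/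
noncomputable def nb (k : ℕ) (A : ℕ → ℕ → Prop) (i : ℕ) : Finset ℕ := (range k).filter fun j => j = i ∨ A i j

open Classical in
/-- The total weight of the integers below `b ^ k` which have the same digits as `v` outside `S`. -/
noncomputable def mass (b k : ℕ) (q : ℕ → ℝ) (S : Finset ℕ) (v : ℕ) : ℝ :=
  ∑ w ∈ (range (b ^ k)).filter (fun w => Off b S w v), q w

/-- The a priori measure: the digits of a random integer `v < b ^ k` (with the probabilities `q v`) form a Markov random
field on a graph `A` of positions with degrees at most `Δ` (for every set `S` of positions and all `v`, `w` which have the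
same digits at the positions outside `S` adjacent to `S`, the product `q v * q w` does not change if `v` and `w` exchange
their digits in `S`), and each digit is flexible: for every `v` with `q v ≠ 0` and every position `i`, there are `x` and `y`
which have the same digits as `v` outside the closed neighbourhood of `i`, which differ from each other exactly at the
position `i`, and whose conditional probabilities, given the digits outside this neighbourhood, are at least `η`. (For
instance, with `Δ = 0`: independent digits, each of which has at least two values with probabilities at least `η`.) -/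
structure RandomField (b k Δ : ℕ) (η : ℝ) (A : ℕ → ℕ → Prop) (q : ℕ → ℝ) : Prop where
  symm : ∀ i j, A i j → A j i
  degree : ∀ i < k, (nb k A i).card ≤ Δ + 1
  nonneg : ∀ v, 0 ≤ q v
  sum : ∑ v ∈ range (b ^ k), q v = 1
  markov : ∀ S : Finset ℕ, ∀ v < b ^ k, ∀ w < b ^ k, (∀ i ∈ S, ∀ j < k, j ∉ S → A i j → dig b v j = dig b w j) →
    q v * q w = q (splice b k S v w) * q (splice b k S w v)
  flexible : ∀ v < b ^ k, q v ≠ 0 → ∀ i < k, ∃ x < b ^ k, ∃ y < b ^ k, Off b (nb k A i) x v ∧ Off b {i} y x ∧
    dig b y i ≠ dig b x i ∧ η * mass b k q (nb k A i) v ≤ q x ∧ η * mass b k q (nb k A i) v ≤ q y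

/-- The interactions `φ X`, for all sets `X ⊆ {0, …, k - 1}` of positions: `φ X v` depends only on the digits of `v` at the
positions in `X`, its absolute value is at most `N X`, and for each position `i` the sum of `exp (r * |X|) * N X` over the
sets `X` which contain `i` is at most `M`. (For instance, pair interactions `φ {i, j}` with `∑ j, N {i, j} ≤ exp (- 2 r) M`
for all `i`, at arbitrary distances.) -/
structure Interaction (b k : ℕ) (M r : ℝ) (φ : Finset ℕ → ℕ → ℝ) (N : Finset ℕ → ℝ) : Prop where
  depends : ∀ X ⊆ range k, ∀ v < b ^ k, ∀ w < b ^ k, (∀ i ∈ X, dig b v i = dig b w i) → φ X v = φ X w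
  bound : ∀ X ⊆ range k, ∀ v < b ^ k, |φ X v| ≤ N X
  summable : ∀ i < k, ∑ X ∈ (range k).powerset.filter (fun X => i ∈ X), Real.exp (r * X.card) * N X ≤ M

/-- The Gibbs weight: the a priori weight times the exponential of the sum of all the interactions. -/
noncomputable def weight (k : ℕ) (q : ℕ → ℝ) (φ : Finset ℕ → ℕ → ℝ) (v : ℕ) : ℝ :=
  q v * Real.exp (∑ X ∈ (range k).powerset, φ X v)

/-- The Gibbs measure: the probability of `v < b ^ k`. -/
noncomputable def gibbs (b k : ℕ) (q : ℕ → ℝ) (φ : Finset ℕ → ℕ → ℝ) (v : ℕ) : ℝ :=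
  weight k q φ v / ∑ w ∈ range (b ^ k), weight k q φ w

lemma field_conv {b k Δ : ℕ} {η : ℝ} {A : ℕ → ℕ → Prop} {q : ℕ → ℝ} (h : RandomField b k Δ η A q) :
    Pool.Agent.N213.GF.Field b k Δ η A q :=
  ⟨h.symm, h.degree, h.nonneg, h.sum, h.markov, h.flexible⟩

lemma inter_conv {b k : ℕ} {M r : ℝ} {φ : Finset ℕ → ℕ → ℝ} {N : Finset ℕ → ℝ} (hb : 2 ≤ b) (h : Interaction b k M r φ N) :
    Pool.Agent.H85G.Inter b k (max M 0) r (fun X v => if X ⊆ range k then φ X v else 0)
      (fun X => if X ⊆ range k then N X else 0) := by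
  have h0 : ∀ X ⊆ range k, 0 ≤ N X := by
    intro X hX
    exact (abs_nonneg _).trans (h.bound X hX 0 (by positivity))
  refine ⟨?_, ?_, ?_, ?_⟩
  · intro X v hv w hw hvw
    split_ifs with hX
    · exact h.depends X hX v hv w hw hvw
    · rfl
  · intro X v hv
    split_ifs with hX
    · exact h.bound X hX v hv
    · rw [abs_zero]
  · intro X
    split_ifs with hX
    · exact h0 X hX
    · exact le_rfl
  · intro i hi
    refine le_trans (le_of_eq ?_) ((h.summable i hi).trans (le_max_left _ _))
    apply sum_congr rfl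
    intro X hX
    rw [mem_filter, mem_powerset] at hX
    beta_reduce
    rw [if_pos hX.1]

lemma energy_conv {k : ℕ} (φ : Finset ℕ → ℕ → ℝ) (v : ℕ) :
    Pool.Agent.H85G.energy k (fun X v => if X ⊆ range k then φ X v else 0) v = ∑ X ∈ (range k).powerset, φ X v := by
  unfold Pool.Agent.H85G.energy
  apply sum_congr rfl
  intro X hX
  beta_reduce
  rw [if_pos (mem_powerset.1 hX)]

lemma gt_conv {b k Δ : ℕ} (hb : 2 ≤ b) {η M r : ℝ} {A : ℕ → ℕ → Prop} {q : ℕ → ℝ} {φ : Finset ℕ → ℕ → ℝ} {N : Finset ℕ → ℝ}
    (hq : RandomField b k Δ η A q) (hφ : Interaction b k M r φ N) :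
    Pool.Agent.H85G.GT b Δ η (max M 0) r k (gibbs b k q φ) := by
  refine ⟨A, q, _, _, field_conv hq, inter_conv hb hφ, ?_⟩
  funext v
  unfold gibbs weight Pool.Agent.H85G.gibbs
  simp only [energy_conv]

/-- The partial product over the primes `ℓ ≤ z` of the singular series for the pair `q`, `d q + a`. -/
noncomputable def sing (a d z : ℕ) : ℝ :=
  ∏ ℓ ∈ (Icc 1 z).filter Nat.Prime, (if ℓ ∣ a * d then 1 - 1 / (ℓ : ℝ) else 1 - 2 / (ℓ : ℝ)) / (1 - 1 / (ℓ : ℝ)) ^ 2

/-- The number of the primes `p` with `x < p ≤ y` for which `(p - a) / d` is a prime. -/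
noncomputable def pairs (a d x y : ℕ) : ℕ := {p : ℕ | x < p ∧ p ≤ y ∧ p.Prime ∧ ∃ q : ℕ, q.Prime ∧ p = d * q + a}.ncard

/-- The number of the primes `p` with `N ≤ p ≤ 2 N` for which `(p - a) / d` is a prime. -/
noncomputable def window (a d N : ℕ) : ℕ := {p : ℕ | N ≤ p ∧ p ≤ 2 * N ∧ p.Prime ∧ ∃ q : ℕ, q.Prime ∧ p = d * q + a}.ncard

/-- The weighted number of the prime powers `m` with `x < m ≤ y` for which `n = (m - a) / d` is a prime power: the sum of
`Λ(n) Λ(d n + a)` over the `n ≥ 1` with `x < d n + a ≤ y`. -/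
noncomputable def weighted (a d x y : ℕ) : ℝ := ∑ n ∈ (Icc 1 y).filter (fun n => x < d * n + a ∧ d * n + a ≤ y),
  ArithmeticFunction.vonMangoldt n * ArithmeticFunction.vonMangoldt (d * n + a)

/-- The expected numbers of prime pairs are found: the singular series converges to a number `S > 0`, and
(1) for all `a ≤ x ≤ y ≤ B Q` the weighted number of the pairs in `(x, y]` is `S (y - x) / d` up to an error of `Q / k ^ U`;
(2) if moreover `y - x ≥ Q / B`, the number of the primes `p` in `(x, y]` for which `(p - a) / d` is a prime is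
`S (y - x) / (d log ^ 2 Q)` up to a factor between `1 - ε` and `1 + ε`;
(3) for all `N ≥ a` with `Q / B ≤ N` and `2 N ≤ B Q` the number of the primes `p` in `[N, 2 N]` for which `(p - a) / d` is a
prime is `S N / (d log ^ 2 N)` up to a factor between `1 - ε` and `1 + ε`. -/
def Expected (ε : ℝ) (B U k Q a d : ℕ) : Prop := ∃ S : ℝ, 0 < S ∧ Filter.Tendsto (sing a d) Filter.atTop (nhds S) ∧
  (∀ x y : ℕ, a ≤ x → x ≤ y → y ≤ B * Q → |weighted a d x y - S * (((y : ℝ) - x) / d)| ≤ Q / (k : ℝ) ^ U) ∧
  (∀ x y : ℕ, a ≤ x → x ≤ y → y ≤ B * Q → (Q : ℝ) ≤ B * ((y : ℝ) - x) →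
    |(pairs a d x y : ℝ) - S * (((y : ℝ) - x) / d) / Real.log Q ^ 2| ≤ ε * (S * (((y : ℝ) - x) / d) / Real.log Q ^ 2)) ∧
  (∀ N : ℕ, a ≤ N → Q ≤ B * N → 2 * N ≤ B * Q →
    |(window a d N : ℝ) - S * (N / d) / Real.log N ^ 2| ≤ ε * (S * (N / d) / Real.log N ^ 2))

open Classical in
/-- Let `b ≥ 2`, `Δ`, `η > 0`, `M`, `r > 0`, `κ ≥ 1`, `A`, `B ≥ 1`, `U`, `W` and `ε > 0` be fixed, let `k` be large and
`c ≤ B b ^ k`. Let `v < b ^ k` be a random integer whose digits have the Gibbs distribution of arbitrary interactions which are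
summable at each position (with the bound `M`), with respect to an arbitrary Markov random field with flexible digits on a
graph of positions with degrees at most `Δ`. With a probability of at least `1 - 1 / k ^ U` the expected numbers of prime pairs
(`Expected`, with `Q = b ^ k`) are found for ALL the numbers `a = c + κ v + t`, `0 ≤ t ≤ k ^ W`, and ALL `1 ≤ d ≤ k ^ A` with
`gcd (a, d) = 1` and `2 ∣ a d`. -/
theorem result (b : ℕ) (hb : 2 ≤ b) (Δ : ℕ) (η : ℝ) (hη : 0 < η) (M r : ℝ) (hr : 0 < r)
    (κ : ℕ) (hκ : 1 ≤ κ) (A B U W : ℕ) (hB : 1 ≤ B) (ε : ℝ) (hε : 0 < ε) :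
    ∃ k₀ : ℕ, ∀ k : ℕ, k₀ ≤ k →
    ∀ (G : ℕ → ℕ → Prop) (q : ℕ → ℝ), RandomField b k Δ η G q →
    ∀ (φ : Finset ℕ → ℕ → ℝ) (R : Finset ℕ → ℝ), Interaction b k M r φ R →
    ∀ c : ℕ, c ≤ B * b ^ k →
      ∑ v ∈ range (b ^ k), (if ∀ t ≤ k ^ W, ∀ d : ℕ, 1 ≤ d → d ≤ k ^ A → Nat.Coprime (c + κ * v + t) d →
        2 ∣ (c + κ * v + t) * d → Expected ε B U k (b ^ k) (c + κ * v + t) d then 0
        else gibbs b k q φ v) ≤ 1 / (k : ℝ) ^ U := by
  have hGood := Pool.Agent.H85G.gt_good b Δ hb η (max M 0) r hη (le_max_right _ _) hr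
  obtain ⟨k₀, hk₀⟩ := Pool.Agent.H85G.good_hd b hb (Pool.Agent.H85G.GT b Δ η (max M 0) r) hGood κ hκ A B U W hB (min ε 1)
    (lt_min hε one_pos) (min_le_right _ _)
  refine ⟨k₀, fun k hk G q hq φ R hφ c hc => ?_⟩
  obtain ⟨p, hpd⟩ : ∃ p : ℕ → ℝ, p = gibbs b k q φ := ⟨_, rfl⟩
  have hp : Pool.Agent.H85G.GT b Δ η (max M 0) r k p := by
    rw [hpd]
    exact gt_conv hb hq hφ
  have hp0 : ∀ v, 0 ≤ p v := fun v => hGood.nonneg k p hp v
  rw [← hpd]
  refine le_trans (sum_le_sum fun v _ => ?_) (hk₀ k hk p hp c hc)
  by_cases hv : ∀ t ≤ k ^ W, ∀ d : ℕ, 1 ≤ d → d ≤ k ^ A → Nat.Coprime (c + κ * v + t) d →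
        2 ∣ (c + κ * v + t) * d → Pool.Agent.H85G.Hd (min ε 1) B U k (b ^ k) (c + κ * v + t) d
  · rw [if_pos hv, if_pos]
    intro t ht d hd1 hdk hco h2
    obtain ⟨S, hS0, hS1, hS2, hS3, hS4⟩ := hv t ht d hd1 hdk hco h2
    refine ⟨S, hS0, hS1, hS2, ?_, ?_⟩
    · intro x y h1 h2' h3 h4
      refine (hS3 x y h1 h2' h3 h4).trans ?_
      apply mul_le_mul_of_nonneg_right (min_le_left _ _)
      have hyx : (0 : ℝ) ≤ (y : ℝ) - x := by
        have : (x : ℝ) ≤ y := by exact_mod_cast h2'
        linarith
      positivity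
    · intro N h1 h2' h3
      refine (hS4 N h1 h2' h3).trans ?_
      apply mul_le_mul_of_nonneg_right (min_le_left _ _)
      positivity
  · rw [if_neg hv]
    split_ifs
    · exact hp0 v
    · exact le_rfl

end Pool.Agent.Results.MP_39a890_nt.LongRangeGibbsWindows
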